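import Pool.Agent.V11125.IP.Main

set_option autoImplicit false

/-! The number of the sign patterns which occur with positive upper density, on finite sets of positions. -/

namespace Pool.Agent.V11125.IP

open Finset Filter

/-- all the statements about `J` -/
theorem main' {A : Set ℕ} (hA : Sel A) (T : ℕ → Set ℕ) (hT : ∀ i, PosDens (T i)) {η : ℝ} (hη : 0 < η) :
    ∃ s : ℕ → ℕ, StrictMono s ∧ (∀ j, s j ∈ A) ∧ ∀ i, ∃ τ : ℝ, 0 < τ ∧ ∃ N : ℕ → ℕ, StrictMono N ∧
      ∀ m, τ * N m ≤ base (T i) (N m) ∧ ∀ J ⊆ Ico i m, ∀ v, Signs v →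
        |2 ^ J.card * (num (T i) s v J (N m) : ℝ) - base (T i) (N m)| ≤ η * base (T i) (N m) := by
  classical
  obtain ⟨s, h1, h2, h3⟩ := main hA T hT hη
  refine ⟨s, h1, h2, fun i => ?_⟩
  obtain ⟨τ, h4, N, h5, h6⟩ := h3 i
  refine ⟨τ, h4, N, h5, fun m => ⟨(h6 m).1, fun J hJ v hv => ?_⟩⟩
  rcases Nat.lt_or_ge m i with h | h
  · have h7 : J = ∅ := by
      rw [← subset_empty]
      refine hJ.trans (le_of_eq ?_)
      rw [Ico_eq_empty_iff]
      omega
    subst h7
    have h8 : num (T i) s v ∅ (N m) = base (T i) (N m) := by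
      unfold num base
      congr 1
      apply filter_congr
      intro n _
      simp
    rw [h8, card_empty, pow_zero, one_mul, sub_self, abs_zero]
    positivity
  · exact num_bound (fun w hw => (h6 m).2 m h le_rfl w hw) hJ hv

/-- the `n` at which the positions `n + d`, `d ∈ D`, have the sign `1` if and only if `d ∈ P` -/
def cyl (D P : Finset ℕ) : Set ℕ := {n | ∀ d ∈ D, lam (n + d) = if d ∈ P then 1 else -1}

open Classical in
/-- the sign patterns on the set `D` of positions which occur with positive upper density -/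
noncomputable def cset (D : Finset ℕ) : Finset (Finset ℕ) := D.powerset.filter (fun P => PosDens (cyl D P))

lemma base_mono {T T' : Set ℕ} (h : T ⊆ T') (N : ℕ) : base T N ≤ base T' N := by
  classical
  unfold base
  apply card_le_card
  intro n hn
  rw [Finset.mem_filter] at hn ⊢
  exact ⟨hn.1, h hn.2⟩

lemma PosDens.mono {T T' : Set ℕ} (h : T ⊆ T') (hT : PosDens T) : PosDens T' := by
  obtain ⟨τ, h1, h2⟩ := hT
  refine ⟨τ, h1, fun N₀ => ?_⟩
  obtain ⟨N, h3, h4⟩ := h2 N₀
  exact ⟨N, h3, h4.trans (by exact_mod_cast base_mono h N)⟩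

lemma posDens_univ : PosDens Set.univ := by
  classical
  refine ⟨1, one_pos, fun N₀ => ⟨N₀, le_rfl, ?_⟩⟩
  unfold base
  simp

theorem complexity {A : Set ℕ} (hA : Sel A) : ∃ s : ℕ → ℕ, StrictMono s ∧ (∀ j, s j ∈ A) ∧
    ∀ D : Finset ℕ, ∃ R : ℕ, ∀ F : Finset ℕ, (∀ a ∈ F, R < a ∧ ∃ j, s j = a) →
      (cset (D ∪ F)).card = 2 ^ F.card * (cset D).card := by
  classical
  let ι := {x : Finset ℕ × Finset ℕ // PosDens (cyl x.1 x.2)}
  have hne : Nonempty ι := ⟨⟨(∅, ∅), by
    have : cyl ∅ ∅ = Set.univ := by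
      ext n
      simp [cyl]
    rw [this]
    exact posDens_univ⟩⟩
  obtain ⟨e, he⟩ := exists_surjective_nat ι
  obtain ⟨s, h1, h2, h3⟩ := main' hA (fun i => cyl (e i).1.1 (e i).1.2) (fun i => (e i).2) (η := 1 / 2) (by norm_num)
  refine ⟨s, h1, h2, fun D => ?_⟩
  -- the index of a pattern
  have hidx : ∀ P : Finset ℕ, ∃ i, PosDens (cyl D P) → (e i).1 = (D, P) := by
    intro P
    by_cases h : PosDens (cyl D P)
    · obtain ⟨i, hi⟩ := he ⟨(D, P), h⟩
      exact ⟨i, fun _ => by rw [hi]⟩
    · exact ⟨0, fun h' => absurd h' h⟩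
  choose idx hidx using hidx
  refine ⟨max (s (D.powerset.sup idx)) (D.sup id), fun F hF => ?_⟩
  have hdisj : ∀ a ∈ F, a ∉ D := by
    intro a ha haD
    have h4 := (hF a ha).1
    have h5 : a ≤ D.sup id := le_sup (f := id) haD
    have h6 := le_max_right (s (D.powerset.sup idx)) (D.sup id)
    omega
  have key : ∀ P ⊆ D, PosDens (cyl D P) → ∀ Q ⊆ F, PosDens (cyl (D ∪ F) (P ∪ Q)) := by
    intro P hP hPd Q hQ
    obtain ⟨τ, h4, N, h5, h6⟩ := h3 (idx P)
    have h7 := hidx P hPd
    choose jj hjj using fun a : F => (hF a.1 a.2).2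
    -- the set of the indices
    set J : Finset ℕ := (range (F.sup id + 1)).filter (fun j => s j ∈ F) with hJ
    have hJm : ∀ m, F.sup id + 1 ≤ m → J ⊆ Ico (idx P) m := by
      intro m hm j hj
      rw [hJ, Finset.mem_filter, Finset.mem_range] at hj
      rw [Finset.mem_Ico]
      refine ⟨?_, by omega⟩
      have h8 := (hF _ hj.2).1
      have h9 : s (D.powerset.sup idx) < s j := lt_of_le_of_lt (le_max_left _ _) h8
      have h10 : D.powerset.sup idx < j := h1.lt_iff_lt.1 h9
      have h11 : idx P ≤ D.powerset.sup idx := le_sup (f := idx) (Finset.mem_powerset.2 hP)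
      omega
    set v : ℕ → ℤ := fun j => if s j ∈ Q then 1 else -1 with hv
    have hvs : Signs v := by
      intro t
      simp only [hv]
      split_ifs
      · exact Or.inl rfl
      · exact Or.inr rfl
    have hset : ∀ n, (n ∈ cyl D P ∧ ∀ j ∈ J, lam (n + s j) = v j) → n ∈ cyl (D ∪ F) (P ∪ Q) := by
      rintro n ⟨h8, h9⟩ d hd
      rw [Finset.mem_union] at hd
      by_cases hdD : d ∈ D
      · have h10 := h8 d hdD
        rw [h10]
        have h11 : d ∉ Q := fun h => hdisj d (hQ h) hdD
        have h12 : (d ∈ P ∪ Q) ↔ d ∈ P := by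
          rw [Finset.mem_union]
          exact or_iff_left h11
        simp only [h12]
      · have hdF : d ∈ F := hd.resolve_left hdD
        obtain ⟨j, hj⟩ := (hF d hdF).2
        have hjJ : j ∈ J := by
          rw [hJ, Finset.mem_filter, Finset.mem_range]
          refine ⟨?_, by rw [hj]; exact hdF⟩
          have h10 : j ≤ s j := h1.le_apply
          have h11 : d ≤ F.sup id := le_sup (f := id) hdF
          omega
        have h10 := h9 j hjJ
        simp only [hv] at h10
        rw [hj] at h10
        rw [h10]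
        have h11 : d ∉ P := fun h => hdD (hP h)
        have h12 : (d ∈ P ∪ Q) ↔ d ∈ Q := by
          rw [Finset.mem_union]
          exact or_iff_right h11
        simp only [h12]
    refine ⟨τ / (2 * 2 ^ J.card), by positivity, fun N₀ => ?_⟩
    set m := max N₀ (F.sup id + 1) with hm
    refine ⟨N m, (le_max_left _ _).trans h5.le_apply, ?_⟩
    have h8 := (h6 m).2 J (hJm m (le_max_right _ _)) v hvs
    have h9 := (h6 m).1
    simp only [h7] at h8 h9
    have h10 : (num (cyl D P) s v J (N m) : ℝ) ≤ base (cyl (D ∪ F) (P ∪ Q)) (N m) := by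
      unfold num base
      apply Nat.cast_le.2
      apply card_le_card
      intro n hn
      rw [Finset.mem_filter] at hn ⊢
      exact ⟨hn.1, hset n hn.2⟩
    refine le_trans ?_ h10
    rw [div_mul_eq_mul_div, div_le_iff₀ (by positivity)]
    have h11 := (abs_le.1 h8).1
    have h12 : (0 : ℝ) < 2 ^ J.card := by positivity
    nlinarith
  have hcard : (cset (D ∪ F)).card = (cset D ×ˢ F.powerset).card := by
    symm
    apply Finset.card_nbij' (fun x => x.1 ∪ x.2) (fun X => (X ∩ D, X ∩ F))
    · rintro ⟨P, Q⟩ h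
      rw [mem_coe, Finset.mem_product, cset, Finset.mem_filter, Finset.mem_powerset, Finset.mem_powerset] at h
      rw [mem_coe, cset, Finset.mem_filter, Finset.mem_powerset]
      exact ⟨union_subset_union h.1.1 h.2, key P h.1.1 h.1.2 Q h.2⟩
    · intro X h
      rw [mem_coe, cset, Finset.mem_filter, Finset.mem_powerset] at h
      rw [mem_coe, Finset.mem_product, cset, Finset.mem_filter, Finset.mem_powerset, Finset.mem_powerset]
      refine ⟨⟨inter_subset_right, h.2.mono ?_⟩, inter_subset_right⟩
      intro n hn d hd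
      have h4 := hn d (Finset.mem_union_left _ hd)
      rw [h4]
      have h5 : (d ∈ X ∩ D) ↔ d ∈ X := by
        rw [Finset.mem_inter]
        exact and_iff_left hd
      simp only [h5]
    · rintro ⟨P, Q⟩ h
      rw [mem_coe, Finset.mem_product, cset, Finset.mem_filter, Finset.mem_powerset, Finset.mem_powerset] at h
      obtain ⟨⟨hP, _⟩, hQ⟩ := h
      simp only [Prod.mk.injEq]
      constructor
      · ext d
        rw [Finset.mem_inter, Finset.mem_union]
        constructor
        · rintro ⟨h4 | h4, h5⟩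
          · exact h4
          · exact absurd h5 (hdisj d (hQ h4))
        · exact fun h4 => ⟨Or.inl h4, hP h4⟩
      · ext d
        rw [Finset.mem_inter, Finset.mem_union]
        constructor
        · rintro ⟨h4 | h4, h5⟩
          · exact absurd (hP h4) (hdisj d h5)
          · exact h4
        · exact fun h4 => ⟨Or.inr h4, hQ h4⟩
    · intro X h
      rw [mem_coe, cset, Finset.mem_filter, Finset.mem_powerset] at h
      simp only
      rw [← inter_union_distrib_left]
      exact inter_eq_left.2 h.1
  rw [hcard, card_product, card_powerset, mul_comm]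

end Pool.Agent.V11125.IP
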