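import Pool.Agent.V11125.IP.Sel

set_option autoImplicit false

/-! Infinite sets of positions which carry all sign patterns of the Liouville function. -/

namespace Pool.Agent.V11125.IP

open Finset Filter
open Pool.Agent.H373R2.T7 (liR)

/-- Liouville's function -/
def lam (n : ℕ) : ℤ := (-1) ^ ArithmeticFunction.cardFactors n

lemma lam_pm (n : ℕ) : lam n = 1 ∨ lam n = -1 := neg_one_pow_eq_or ℤ _

lemma liR_lam (n : ℕ) : liR n = ((lam n : ℤ) : ℂ) := by
  unfold liR lam
  push_cast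
  rfl

/-- the condition on `n` -/
def Pat (T : Set ℕ) (s : ℕ → ℕ) (v : ℕ → ℤ) (i k n : ℕ) : Prop :=
  n ∈ T ∧ ∀ t, i ≤ t → t < k → lam (n + s t) = v t

open Classical in
/-- the number of the `n ≤ N` in `T` with the signs `v t` at the places `n + s t`, `i ≤ t < k` -/
noncomputable def cnt (T : Set ℕ) (s : ℕ → ℕ) (v : ℕ → ℤ) (i k N : ℕ) : ℕ :=
  ((Icc 1 N).filter (fun n => Pat T s v i k n)).card

open Classical in
/-- the number of the `n ≤ N` in `T` -/
noncomputable def base (T : Set ℕ) (N : ℕ) : ℕ := ((Icc 1 N).filter (fun n => n ∈ T)).card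

lemma cnt_self (T : Set ℕ) (s : ℕ → ℕ) (v : ℕ → ℤ) (i N : ℕ) : cnt T s v i i N = base T N := by
  classical
  unfold cnt base
  congr 1
  apply filter_congr
  intro n _
  unfold Pat
  constructor
  · exact fun h => h.1
  · exact fun h => ⟨h, fun t h1 h2 => absurd h2 (by omega)⟩

open Classical in
/-- the weight -/
noncomputable def wt (T : Set ℕ) (i j : ℕ) (f : ℕ → ℕ) (v : ℕ → ℤ) (n : ℕ) : ℂ :=
  if Pat T f v i j n then 1 else 0

lemma Pat_congr {T : Set ℕ} {f f' : ℕ → ℕ} {v v' : ℕ → ℤ} {i j n : ℕ} (h : ∀ t < j, f t = f' t)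
    (h' : ∀ t < j, v t = v' t) : Pat T f v i j n ↔ Pat T f' v' i j n := by
  unfold Pat
  constructor
  · rintro ⟨h1, h2⟩
    refine ⟨h1, fun t ht1 ht2 => ?_⟩
    rw [← h t ht2, ← h' t ht2]
    exact h2 t ht1 ht2
  · rintro ⟨h1, h2⟩
    refine ⟨h1, fun t ht1 ht2 => ?_⟩
    rw [h t ht2, h' t ht2]
    exact h2 t ht1 ht2

lemma wt_congr {T : Set ℕ} {f f' : ℕ → ℕ} {v v' : ℕ → ℤ} {i j : ℕ} (h : ∀ t < j, f t = f' t)
    (h' : ∀ t < j, v t = v' t) (n : ℕ) : wt T i j f v n = wt T i j f' v' n := by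
  have h1 := Pat_congr (T := T) (i := i) (n := n) h h'
  unfold wt
  by_cases hp : Pat T f v i j n
  · rw [if_pos hp, if_pos (h1.1 hp)]
  · rw [if_neg hp, if_neg (fun h2 => hp (h1.2 h2))]

lemma wt_norm (T : Set ℕ) (i j : ℕ) (f : ℕ → ℕ) (v : ℕ → ℤ) (n : ℕ) : ‖wt T i j f v n‖ ≤ 1 := by
  unfold wt
  split_ifs <;> simp

/-- signs -/
def Signs (v : ℕ → ℤ) : Prop := ∀ t, v t = 1 ∨ v t = -1

/-- one more place -/
lemma step {T : Set ℕ} {s : ℕ → ℕ} {v : ℕ → ℤ} (hv : Signs v) {i k N : ℕ} (hik : i ≤ k) :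
    |2 * (cnt T s v i (k + 1) N : ℝ) - cnt T s v i k N| ≤
      ‖∑ n ∈ Icc 1 N, wt T i k s v n * liR (n + s k)‖ := by
  classical
  have h1 : ∑ n ∈ (Icc 1 N).filter (fun n => Pat T s v i k n), v k * lam (n + s k) =
      2 * (cnt T s v i (k + 1) N : ℤ) - cnt T s v i k N := by
    have h2 : (Icc 1 N).filter (fun n => Pat T s v i (k + 1) n) =
        ((Icc 1 N).filter (fun n => Pat T s v i k n)).filter (fun n => lam (n + s k) = v k) := by
      rw [filter_filter]
      apply filter_congr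
      intro n _
      unfold Pat
      constructor
      · rintro ⟨h3, h4⟩
        exact ⟨⟨h3, fun t h5 h6 => h4 t h5 (by omega)⟩, h4 k hik (by omega)⟩
      · rintro ⟨⟨h3, h4⟩, h5⟩
        refine ⟨h3, fun t h6 h7 => ?_⟩
        rcases Nat.lt_or_ge t k with h8 | h8
        · exact h4 t h6 h8
        · have : t = k := by omega
          rw [this]
          exact h5
    unfold cnt
    rw [h2, card_filter (fun n => lam (n + s k) = v k), card_eq_sum_ones]
    push_cast
    rw [mul_sum, ← sum_sub_distrib]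
    apply sum_congr rfl
    intro n _
    rcases hv k with h | h <;> rcases lam_pm (n + s k) with h' | h' <;> rw [h, h'] <;> norm_num
  have h3 : ∑ n ∈ Icc 1 N, wt T i k s v n * liR (n + s k) =
      ((∑ n ∈ (Icc 1 N).filter (fun n => Pat T s v i k n), lam (n + s k) : ℤ) : ℂ) := by
    rw [sum_filter]
    push_cast
    apply sum_congr rfl
    intro n _
    unfold wt
    rw [liR_lam]
    split_ifs <;> simp
  rw [h3, Complex.norm_intCast]
  rw [← mul_sum] at h1
  have h4 : (2 * (cnt T s v i (k + 1) N : ℝ) - cnt T s v i k N) =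
      ((v k * ∑ n ∈ (Icc 1 N).filter (fun n => Pat T s v i k n), lam (n + s k) : ℤ) : ℝ) := by
    rw [h1]
    push_cast
    ring
  rw [h4]
  push_cast
  rw [abs_mul]
  have h5 : |((v k : ℤ) : ℝ)| = 1 := by
    rcases hv k with h | h <;> rw [h] <;> norm_num
  rw [h5, one_mul]

/-- the choice of the next place -/
lemma choice {A : Set ℕ} (hA : Sel A) (T : ℕ → Set ℕ) (U : ℕ → Ultrafilter ℕ) (hU : ∀ i, (U i : Filter ℕ) ≤ atTop)
    (j : ℕ) (f : ℕ → ℕ) (R : ℕ) {ε : ℝ} (hε : 0 < ε) :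
    ∃ a ∈ A, R < a ∧ ∀ i ≤ j, ∀ᶠ N in (U i : Filter ℕ), ∀ v, Signs v →
      ‖∑ n ∈ Icc 1 N, wt (T i) i j f v n * liR (n + a)‖ ≤ ε * N := by
  classical
  set L := Fintype.card (Fin j → Bool) with hL
  let e : (Fin j → Bool) ≃ Fin L := Fintype.equivFin _
  let ex : (Fin j → Bool) → ℕ → ℤ := fun w t => if h : t < j then (if w ⟨t, h⟩ then 1 else -1) else 1
  let g : ℕ → Fin L → ℕ → ℂ := fun i l => wt (T i) i j f (ex (e.symm l))
  obtain ⟨N₀, I, t, hI, h1⟩ := hA L ε hε (j + 1) R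
  let B : ℕ → Finset ℕ := fun i => I.filter (fun m => ∀ᶠ N in (U i : Filter ℕ), Bad ε (g i) N (t m))
  have hB : ∀ i, (j + 1) * (B i).card < I.card := by
    intro i
    have h2 : ∀ᶠ N in (U i : Filter ℕ), ∀ m ∈ B i, Bad ε (g i) N (t m) := by
      rw [Filter.eventually_all_finset]
      intro m hm
      exact (mem_filter.1 hm).2
    have h3 : ∀ᶠ N in (U i : Filter ℕ), N₀ ≤ N := (eventually_ge_atTop N₀).filter_mono (hU i)
    obtain ⟨N, h4, h5⟩ := (h2.and h3).exists
    refine lt_of_le_of_lt (Nat.mul_le_mul_left _ (card_le_card ?_)) (h1 N h5 (g i) (fun l n => wt_norm _ _ _ _ _ n))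
    intro m hm
    rw [mem_filter]
    exact ⟨(mem_filter.1 hm).1, h4 m hm⟩
  have h6 : ((range (j + 1)).biUnion B).card < I.card := by
    have h7 : ((range (j + 1)).biUnion B).card ≤ ∑ i ∈ range (j + 1), (B i).card := card_biUnion_le
    have h8 : ∑ i ∈ range (j + 1), (j + 1) * (B i).card < ∑ i ∈ range (j + 1), I.card :=
      sum_lt_sum_of_nonempty ⟨0, by simp⟩ fun i _ => hB i
    rw [← mul_sum, sum_const, card_range, smul_eq_mul] at h8
    exact lt_of_le_of_lt h7 (lt_of_mul_lt_mul_left h8 (Nat.zero_le _))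
  obtain ⟨m, hm, hmB⟩ := exists_mem_notMem_of_card_lt_card h6
  refine ⟨t m, (hI m hm).1, (hI m hm).2, fun i hi => ?_⟩
  have h9 : ¬ ∀ᶠ N in (U i : Filter ℕ), Bad ε (g i) N (t m) := by
    intro hcon
    apply hmB
    rw [mem_biUnion]
    exact ⟨i, by rw [mem_range]; omega, mem_filter.2 ⟨hm, hcon⟩⟩
  have h10 := Ultrafilter.eventually_not.2 h9
  filter_upwards [h10] with N hN v hv
  unfold Bad at hN
  rw [not_not] at hN
  have h11 := hN (e (fun t : Fin j => decide (v t = 1)))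
  have h12 : ∀ n, g i (e (fun t : Fin j => decide (v t = 1))) n = wt (T i) i j f v n := by
    intro n
    apply wt_congr (fun _ _ => rfl)
    intro t ht
    simp only [e, ex, Equiv.symm_apply_apply, ht, dif_pos, decide_eq_true_eq]
    rcases hv t with h | h
    · rw [h]; simp
    · rw [h]; simp
  simp only [h12] at h11
  exact h11

/-- positive upper density -/
def PosDens (T : Set ℕ) : Prop := ∃ τ : ℝ, 0 < τ ∧ ∀ N₀ : ℕ, ∃ N ≥ N₀, τ * N ≤ base T N

/-- the error -/
lemma error {T : Set ℕ} {s : ℕ → ℕ} {v : ℕ → ℤ} (hv : Signs v) {i m N : ℕ} {η τ : ℝ} (hη : 0 < η) (hτ : 0 < τ)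
    {ε : ℕ → ℝ} (hε : ∀ j, i ≤ j → ε j ≤ η * τ / 4 ^ (j + 1))
    (h : ∀ j, i ≤ j → j < m → ‖∑ n ∈ Icc 1 N, wt T i j s v n * liR (n + s j)‖ ≤ ε j * N) :
    ∀ k, i ≤ k → k ≤ m → |2 ^ (k - i) * (cnt T s v i k N : ℝ) - base T N| ≤ η * τ * N * (1 - 1 / 2 ^ k) := by
  intro k hk
  induction k, hk using Nat.le_induction with
  | base =>
    intro _
    rw [Nat.sub_self, pow_zero, one_mul, cnt_self, sub_self, abs_zero]
    have h1 : (1 : ℝ) / 2 ^ i ≤ 1 := by
      rw [div_le_one (by positivity)]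
      exact one_le_pow₀ (by norm_num)
    have h2 : 0 ≤ 1 - (1 : ℝ) / 2 ^ i := by linarith
    positivity
  | succ k hk ih =>
    intro hkm
    have h1 := ih (by omega)
    have h2 := (step (T := T) (s := s) (N := N) hv hk).trans (h k hk (by omega))
    have h3 : (2 : ℝ) ^ (k + 1 - i) * (cnt T s v i (k + 1) N : ℝ) - base T N =
        2 ^ (k - i) * (2 * (cnt T s v i (k + 1) N : ℝ) - cnt T s v i k N) +
          (2 ^ (k - i) * (cnt T s v i k N : ℝ) - base T N) := by
      have : k + 1 - i = (k - i) + 1 := by omega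
      rw [this, pow_succ]
      ring
    rw [h3]
    refine (abs_add_le _ _).trans ?_
    rw [abs_mul, abs_of_pos (by positivity : (0 : ℝ) < 2 ^ (k - i))]
    have hN : (0 : ℝ) ≤ N := Nat.cast_nonneg _
    have h4 : (2 : ℝ) ^ (k - i) ≤ 2 ^ k := pow_le_pow_right₀ (by norm_num) (by omega)
    have h5 : (2 : ℝ) ^ (k - i) * |2 * (cnt T s v i (k + 1) N : ℝ) - cnt T s v i k N| ≤
        2 ^ k * (η * τ / 4 ^ (k + 1) * N) := by
      apply mul_le_mul h4 _ (abs_nonneg _) (by positivity)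
      exact h2.trans (mul_le_mul_of_nonneg_right (hε k hk) hN)
    have h6 : (2 : ℝ) ^ k * (η * τ / 4 ^ (k + 1) * N) = η * τ * N * (1 / (4 * 2 ^ k)) := by
      have : (4 : ℝ) ^ (k + 1) = 4 * (2 ^ k * 2 ^ k) := by
        rw [pow_succ, ← mul_pow]
        norm_num
        ring
      rw [this]
      field_simp
    have h7 : η * τ * N * (1 / (4 * 2 ^ k)) + η * τ * N * (1 - 1 / 2 ^ k) ≤ η * τ * N * (1 - 1 / 2 ^ (k + 1)) := by
      rw [← mul_add]
      apply mul_le_mul_of_nonneg_left _ (by positivity)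
      have e1 : (1 : ℝ) / 2 ^ (k + 1) = 1 / 2 * (1 / 2 ^ k) := by
        rw [pow_succ]
        field_simp
      have e2 : (1 : ℝ) / (4 * 2 ^ k) = 1 / 4 * (1 / 2 ^ k) := by
        field_simp
      rw [e1, e2]
      have : (0 : ℝ) < 1 / 2 ^ k := by positivity
      linarith
    linarith

theorem main {A : Set ℕ} (hA : Sel A) (T : ℕ → Set ℕ) (hT : ∀ i, PosDens (T i)) {η : ℝ} (hη : 0 < η) :
    ∃ s : ℕ → ℕ, StrictMono s ∧ (∀ j, s j ∈ A) ∧ ∀ i, ∃ τ : ℝ, 0 < τ ∧ ∃ N : ℕ → ℕ, StrictMono N ∧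
      ∀ m, τ * N m ≤ base (T i) (N m) ∧ ∀ k, i ≤ k → k ≤ m → ∀ v, Signs v →
        |2 ^ (k - i) * (cnt (T i) s v i k (N m) : ℝ) - base (T i) (N m)| ≤ η * base (T i) (N m) := by
  classical
  choose τ hτ hfr using hT
  have hfr' : ∀ i, ∃ᶠ N : ℕ in atTop, τ i * N ≤ base (T i) N := by
    intro i
    rw [Filter.frequently_atTop]
    intro N₀
    obtain ⟨N, h1, h2⟩ := hfr i N₀
    exact ⟨N, h1, h2⟩
  -- the ultrafilters
  have hne : ∀ i, (atTop ⊓ 𝓟 {N : ℕ | τ i * N ≤ base (T i) N} : Filter ℕ).NeBot := fun i =>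
    Filter.frequently_iff_neBot.1 (hfr' i)
  let U : ℕ → Ultrafilter ℕ := fun i => @Ultrafilter.of ℕ _ (hne i)
  have hUle : ∀ i, (U i : Filter ℕ) ≤ atTop ⊓ 𝓟 {N : ℕ | τ i * N ≤ base (T i) N} := fun i =>
    @Ultrafilter.of_le ℕ _ (hne i)
  have hU : ∀ i, (U i : Filter ℕ) ≤ atTop := fun i => (hUle i).trans inf_le_left
  have hUd : ∀ i, ∀ᶠ N : ℕ in (U i : Filter ℕ), τ i * (N : ℝ) ≤ base (T i) N := fun i =>
    ((hUle i).trans inf_le_right) (mem_principal_self _)
  -- the errors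
  have hρ : ∀ j : ℕ, ∃ r : ℝ, 0 < r ∧ ∀ i ≤ j, r ≤ τ i := by
    intro j
    induction j with
    | zero => exact ⟨τ 0, hτ 0, fun i hi => by rw [Nat.le_zero.1 hi]⟩
    | succ j ih =>
      obtain ⟨r, h1, h2⟩ := ih
      refine ⟨min r (τ (j + 1)), lt_min h1 (hτ _), fun i hi => ?_⟩
      rcases Nat.lt_or_ge i (j + 1) with h | h
      · exact (min_le_left _ _).trans (h2 i (by omega))
      · have : i = j + 1 := by omega
        rw [this]
        exact min_le_right _ _
  choose ρ hρ0 hρτ using hρ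
  let ε : ℕ → ℝ := fun j => η * ρ j / 4 ^ (j + 1)
  have hε0 : ∀ j, 0 < ε j := fun j => by
    have := hρ0 j
    simp only [ε]
    positivity
  have hch : ∀ (j : ℕ) (f : ℕ → ℕ), ∃ a, a ∈ A ∧ (∀ t < j, f t < a) ∧ ∀ i ≤ j, ∀ᶠ N in (U i : Filter ℕ), ∀ v,
      Signs v → ‖∑ n ∈ Icc 1 N, wt (T i) i j f v n * liR (n + a)‖ ≤ ε j * N := by
    intro j f
    obtain ⟨a, h1, h2, h3⟩ := choice hA T U hU j f ((range j).sup f) (hε0 j)
    exact ⟨a, h1, fun t ht => lt_of_le_of_lt (le_sup (f := f) (mem_range.2 ht)) h2, h3⟩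
  choose c hc1 hc2 hc3 using hch
  let F : ℕ → ℕ → ℕ := fun j => Nat.rec (fun _ => 0) (fun j f => Function.update f j (c j f)) j
  have hFs : ∀ j, F (j + 1) = Function.update (F j) j (c j (F j)) := fun j => rfl
  let s : ℕ → ℕ := fun j => c j (F j)
  have hF : ∀ j, ∀ t < j, F j t = s t := by
    intro j
    induction j with
    | zero => intro t ht; omega
    | succ j ih =>
      intro t ht
      rw [hFs]
      rcases Nat.lt_or_ge t j with h | h
      · rw [Function.update_of_ne (by omega)]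
        exact ih t h
      · have : t = j := by omega
        rw [this, Function.update_self]
  have hs3 : ∀ j, ∀ i ≤ j, ∀ᶠ N in (U i : Filter ℕ), ∀ v, Signs v →
      ‖∑ n ∈ Icc 1 N, wt (T i) i j s v n * liR (n + s j)‖ ≤ ε j * N := by
    intro j i hi
    filter_upwards [hc3 j (F j) i hi] with N hN v hv
    have h1 := hN v hv
    have h2 : ∀ n, wt (T i) i j (F j) v n = wt (T i) i j s v n := wt_congr (hF j) (fun _ _ => rfl)
    simp only [h2] at h1
    exact h1
  refine ⟨s, strictMono_nat_of_lt_succ fun j => ?_, fun j => hc1 j (F j), fun i => ⟨τ i, hτ i, ?_⟩⟩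
  · have h1 := hc2 (j + 1) (F (j + 1)) j (by omega)
    rw [hF (j + 1) j (by omega)] at h1
    exact h1
  · have hev : ∀ m : ℕ, ∃ᶠ N : ℕ in atTop, τ i * (N : ℝ) ≤ base (T i) N ∧ ∀ j ∈ range m, i ≤ j → ∀ v, Signs v →
        ‖∑ n ∈ Icc 1 N, wt (T i) i j s v n * liR (n + s j)‖ ≤ ε j * N := by
      intro m
      have h1 : ∀ᶠ N in (U i : Filter ℕ), ∀ j ∈ range m, i ≤ j → ∀ v, Signs v →
          ‖∑ n ∈ Icc 1 N, wt (T i) i j s v n * liR (n + s j)‖ ≤ ε j * N := by
        rw [Filter.eventually_all_finset]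
        intro j _
        by_cases hij : i ≤ j
        · filter_upwards [hs3 j i hij] with N hN _
          exact hN
        · exact Eventually.of_forall fun N h => absurd h hij
      exact (((hUd i).and h1).frequently).filter_mono (hU i)
    obtain ⟨N, hN, h2⟩ := Filter.extraction_forall_of_frequently hev
    refine ⟨N, hN, fun m => ⟨(h2 m).1, fun k hik hkm v hv => ?_⟩⟩
    have h3 := error (T := T i) (s := s) (m := m) (N := N m) hv hη (hτ i) (ε := ε) (by
      intro j hj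
      simp only [ε]
      have := hρτ j i hj
      gcongr) (by
      intro j hij hjm
      exact (h2 m).2 j (mem_range.2 hjm) hij v hv) k hik hkm
    refine h3.trans ?_
    have h4 : (1 : ℝ) - 1 / 2 ^ k ≤ 1 := by
      have : (0 : ℝ) < 1 / 2 ^ k := by positivity
      linarith
    calc η * τ i * N m * (1 - 1 / 2 ^ k) ≤ η * τ i * N m * 1 := by
          apply mul_le_mul_of_nonneg_left h4
          have := hτ i
          positivity
      _ = η * (τ i * N m) := by ring
      _ ≤ η * base (T i) (N m) := mul_le_mul_of_nonneg_left (h2 m).1 hη.le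

open Classical in
/-- the number of the `n ≤ N` in `T` with the signs `v j` at the places `n + s j`, `j ∈ J` -/
noncomputable def num (T : Set ℕ) (s : ℕ → ℕ) (v : ℕ → ℤ) (J : Finset ℕ) (N : ℕ) : ℕ :=
  ((Icc 1 N).filter (fun n => n ∈ T ∧ ∀ j ∈ J, lam (n + s j) = v j)).card

/-- the extension of the signs `v` on `J` -/
def extd (v : ℕ → ℤ) (J P : Finset ℕ) (t : ℕ) : ℤ := if t ∈ J then v t else if t ∈ P then 1 else -1

lemma num_sum (T : Set ℕ) (s : ℕ → ℕ) (v : ℕ → ℤ) {i m : ℕ} {J : Finset ℕ} (hJ : J ⊆ Ico i m) (N : ℕ) :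
    num T s v J N = ∑ P ∈ (Ico i m \ J).powerset, cnt T s (extd v J P) i m N := by
  classical
  unfold num
  rw [card_eq_sum_card_fiberwise (f := fun n => (Ico i m \ J).filter (fun t => lam (n + s t) = 1))
    (t := (Ico i m \ J).powerset) (fun n _ => mem_powerset.2 (filter_subset _ _))]
  apply sum_congr rfl
  intro P hP
  rw [mem_powerset] at hP
  unfold cnt
  rw [filter_filter]
  congr 1
  apply filter_congr
  intro n _
  constructor
  · rintro ⟨⟨h1, h2⟩, h3⟩
    refine ⟨h1, fun t ht1 ht2 => ?_⟩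
    unfold extd
    by_cases htJ : t ∈ J
    · rw [if_pos htJ]
      exact h2 t htJ
    · rw [if_neg htJ]
      have htK : t ∈ Ico i m \ J := Finset.mem_sdiff.2 ⟨Finset.mem_Ico.2 ⟨ht1, ht2⟩, htJ⟩
      by_cases htP : t ∈ P
      · rw [if_pos htP]
        rw [← h3, Finset.mem_filter] at htP
        exact htP.2
      · rw [if_neg htP]
        rcases lam_pm (n + s t) with h | h
        · exfalso
          apply htP
          rw [← h3, Finset.mem_filter]
          exact ⟨htK, h⟩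
        · exact h
  · rintro ⟨h1, h2⟩
    refine ⟨⟨h1, fun j hj => ?_⟩, ?_⟩
    · have h3 := Finset.mem_Ico.1 (hJ hj)
      have h4 := h2 j h3.1 h3.2
      unfold extd at h4
      rwa [if_pos hj] at h4
    · ext t
      rw [Finset.mem_filter]
      constructor
      · rintro ⟨h3, h4⟩
        rw [Finset.mem_sdiff, Finset.mem_Ico] at h3
        have h5 := h2 t h3.1.1 h3.1.2
        unfold extd at h5
        rw [if_neg h3.2, h4] at h5
        by_contra htP
        rw [if_neg htP] at h5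
        norm_num at h5
      · intro htP
        have h3 := Finset.mem_sdiff.1 (hP htP)
        have h4 := Finset.mem_Ico.1 h3.1
        have h5 := h2 t h4.1 h4.2
        unfold extd at h5
        rw [if_neg h3.2, if_pos htP] at h5
        exact ⟨hP htP, h5⟩

lemma extd_signs {v : ℕ → ℤ} (hv : Signs v) (J P : Finset ℕ) : Signs (extd v J P) := by
  intro t
  unfold extd
  split_ifs
  · exact hv t
  · exact Or.inl rfl
  · exact Or.inr rfl

lemma num_bound {T : Set ℕ} {s : ℕ → ℕ} {i m N : ℕ} {β : ℝ}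
    (h : ∀ v, Signs v → |2 ^ (m - i) * (cnt T s v i m N : ℝ) - base T N| ≤ β) {J : Finset ℕ} (hJ : J ⊆ Ico i m)
    {v : ℕ → ℤ} (hv : Signs v) : |2 ^ J.card * (num T s v J N : ℝ) - base T N| ≤ β := by
  have hc : (Ico i m \ J).card + J.card = m - i := by
    rw [card_sdiff_add_card_eq_card hJ, Nat.card_Ico]
  have h2 : (0 : ℝ) < 2 ^ (Ico i m \ J).card := by positivity
  have h3 : 2 ^ J.card * (num T s v J N : ℝ) - base T N =
      ∑ P ∈ (Ico i m \ J).powerset, (1 / 2 ^ (Ico i m \ J).card) *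
        (2 ^ (m - i) * (cnt T s (extd v J P) i m N : ℝ) - base T N) := by
    rw [← mul_sum, sum_sub_distrib, ← mul_sum, sum_const, card_powerset, nsmul_eq_mul, num_sum T s v hJ, ← hc, pow_add]
    push_cast
    field_simp
  rw [h3]
  calc |∑ P ∈ (Ico i m \ J).powerset, (1 / 2 ^ (Ico i m \ J).card) *
        (2 ^ (m - i) * (cnt T s (extd v J P) i m N : ℝ) - base T N)| ≤
        ∑ P ∈ (Ico i m \ J).powerset, (1 / 2 ^ (Ico i m \ J).card) * β := by
        refine (abs_sum_le_sum_abs _ _).trans (sum_le_sum fun P _ => ?_)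
        rw [abs_mul, abs_of_pos (by positivity : (0 : ℝ) < 1 / 2 ^ (Ico i m \ J).card)]
        exact mul_le_mul_of_nonneg_left (h _ (extd_signs hv J P)) (by positivity)
    _ = β := by
        rw [sum_const, card_powerset, nsmul_eq_mul]
        push_cast
        field_simp

end Pool.Agent.V11125.IP
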