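import Pool.Agent.TH823.MRS.Circ5

set_option autoImplicit false

/-! Selection of shifts from sparse or dense sets (after Matomäki–Radziwiłł–Tao, `Pool.Agent.TH823.MRS`). -/

namespace Pool.Agent.V11125.IP

open Finset Filter
open Pool.Agent.TH823.MRS
open Pool.Agent.H373R2.T7 (exI energy liR liR_norm)

/-- the shift `a` is bad for the weights `g` at the scale `N` -/
def Bad {L : ℕ} (ε : ℝ) (g : Fin L → ℕ → ℂ) (N a : ℕ) : Prop :=
  ¬ ∀ l, ‖∑ n ∈ Icc 1 N, g l n * liR (n + a)‖ ≤ ε * N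

open Classical in
/-- There are arbitrarily large finite families in `A` with few bad shifts. -/
def Sel (A : Set ℕ) : Prop := ∀ (L : ℕ) (ε : ℝ), 0 < ε → ∀ q R : ℕ, ∃ N₀ : ℕ, ∃ I : Finset ℕ, ∃ t : ℕ → ℕ,
  (∀ m ∈ I, t m ∈ A ∧ R < t m) ∧ ∀ N : ℕ, N₀ ≤ N → ∀ g : Fin L → ℕ → ℂ, (∀ l n, ‖g l n‖ ≤ 1) →
    q * (I.filter (fun m => Bad ε g N (t m))).card < I.card

lemma Sm_not_bad {L N : ℕ} {ε ε' : ℝ} (hε : ε' ≤ ε) {g : Fin L → ℕ → ℂ} {b s : ℤ} {a : ℕ} (ha : (a : ℤ) = b + s)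
    (h : Sm liR L 1 N ε' (fun _ => 1) (fun _ => b) g s) : ¬ Bad ε g N a := by
  unfold Bad
  rw [not_not]
  intro l
  have h1 := h l N (by simp)
  refine le_trans (le_of_eq ?_) (h1.trans (mul_le_mul_of_nonneg_right hε (Nat.cast_nonneg _)))
  congr 1
  apply sum_congr rfl
  intro n hn
  rw [mem_Icc] at hn
  congr 1
  have e1 : ((1 : ℕ) : ℤ) * (n : ℤ) + b + s = ((n + a : ℕ) : ℤ) := by
    push_cast
    omega
  unfold exI
  rw [e1, if_pos (by omega), Int.toNat_natCast]

/-- the additive energy of order `p` of the finite set `F`: the number of the solutions of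
`v_1 + ... + v_p = w_1 + ... + w_p` in `F` -/
def energyF (p : ℕ) (F : Finset ℕ) : ℕ :=
  (((Fintype.piFinset fun _ : Fin p => F) ×ˢ (Fintype.piFinset fun _ : Fin p => F)).filter
    (fun q => ∑ i, q.1 i = ∑ i, q.2 i)).card

lemma energy_le {p x M : ℕ} {t : ℕ → ℕ} {F : Finset ℕ} (ht : ∀ m ∈ Icc 1 x, t m ∈ F)
    (hinj : Set.InjOn t (Icc 1 x : Finset ℕ)) : energy p x (fun m => (t m : ℤ) - M) ≤ energyF p F := by
  classical
  unfold energy energyF
  apply Finset.card_le_card_of_injOn (fun q => (fun i => t (q.1 i), fun i => t (q.2 i)))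
  · intro q hq
    rw [mem_coe, mem_filter, mem_product, Fintype.mem_piFinset, Fintype.mem_piFinset] at hq
    obtain ⟨⟨h1, h2⟩, h3⟩ := hq
    rw [mem_coe, mem_filter, mem_product, Fintype.mem_piFinset, Fintype.mem_piFinset]
    refine ⟨⟨fun i => ht _ (h1 i), fun i => ht _ (h2 i)⟩, ?_⟩
    rw [sum_sub_distrib, sum_sub_distrib] at h3
    have h4 : (∑ i, (t (q.1 i) : ℤ)) = ∑ i, (t (q.2 i) : ℤ) := by linarith
    exact_mod_cast h4
  · intro q hq q' hq' h
    rw [mem_coe, mem_filter, mem_product, Fintype.mem_piFinset, Fintype.mem_piFinset] at hq hq'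
    obtain ⟨⟨h1, h2⟩, h3⟩ := hq
    obtain ⟨⟨h1', h2'⟩, h3'⟩ := hq'
    simp only [Prod.mk.injEq] at h
    refine Prod.ext ?_ ?_
    · funext i
      exact hinj (h1 i) (h1' i) (congrFun h.1 i)
    · funext i
      exact hinj (h2 i) (h2' i) (congrFun h.2 i)

lemma le_energyF (p : ℕ) (F : Finset ℕ) : F.card ^ p ≤ energyF p F := by
  classical
  have h1 : (Fintype.piFinset fun _ : Fin p => F).card = F.card ^ p := by
    rw [Fintype.card_piFinset]
    simp
  rw [← h1]
  unfold energyF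
  apply Finset.card_le_card_of_injOn (fun v => (v, v))
  · intro v hv
    rw [mem_coe, Fintype.mem_piFinset] at hv
    rw [mem_coe, mem_filter, mem_product, Fintype.mem_piFinset]
    exact ⟨⟨hv, hv⟩, rfl⟩
  · intro v _ v' _ h
    exact (Prod.mk.injEq _ _ _ _ ▸ h).1

lemma energyF_one (F : Finset ℕ) : energyF 1 F ≤ F.card := by
  classical
  have h1 : (Fintype.piFinset fun _ : Fin 1 => F).card = F.card := by
    rw [Fintype.card_piFinset]
    simp
  conv_rhs => rw [← h1]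
  unfold energyF
  apply Finset.card_le_card_of_injOn (fun q => q.1)
  · intro q hq
    rw [mem_coe, mem_filter, mem_product] at hq
    exact hq.1.1
  · intro q hq q' hq' h
    rw [mem_coe, mem_filter] at hq hq'
    have h3 := hq.2
    have h3' := hq'.2
    rw [Fin.sum_univ_one, Fin.sum_univ_one] at h3 h3'
    simp only at h
    refine Prod.ext h ?_
    funext i
    have : i = 0 := Subsingleton.elim _ _
    rw [this, ← h3, ← h3', h]

lemma count_lemma {q R : ℕ} {U J K : Finset ℕ} {E : ℕ → Prop} [DecidablePred E] {β : ℝ} (hJ : β * U.card ≤ J.card)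
    (hK : K.card ≤ R) (hE : ((U.filter E).card : ℝ) ≤ β / (2 * (q + 1)) * U.card) (hJx : J ⊆ U)
    (hx : 2 * R < β * U.card) : q * ((J \ K).filter E).card < (J \ K).card := by
  have h1 : ((J \ K).filter E).card ≤ (U.filter E).card := by
    apply card_le_card
    intro m hm
    rw [mem_filter, Finset.mem_sdiff] at hm
    rw [mem_filter]
    exact ⟨hJx hm.1.1, hm.2⟩
  have h2 : J.card ≤ (J \ K).card + K.card := by
    have := card_le_card_sdiff_add_card (s := J) (t := K)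
    omega
  have h1' : (((J \ K).filter E).card : ℝ) ≤ ((U.filter E).card : ℝ) := by exact_mod_cast h1
  have h2' : (J.card : ℝ) ≤ (J \ K).card + R := by
    have : J.card ≤ (J \ K).card + R := by omega
    exact_mod_cast this
  have hq : (0 : ℝ) < 2 * (q + 1) := by positivity
  have hβ : 0 < β * U.card := by
    have : (0 : ℝ) ≤ 2 * R := by positivity
    linarith
  have h3 : (q : ℝ) * ((J \ K).filter E).card < β * U.card / 2 := by
    have h4 : (q : ℝ) * ((J \ K).filter E).card ≤ q * (β / (2 * (q + 1)) * U.card) :=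
      mul_le_mul_of_nonneg_left (h1'.trans hE) (Nat.cast_nonneg _)
    refine lt_of_le_of_lt h4 ?_
    have e1 : (q : ℝ) * (β / (2 * (q + 1)) * U.card) = (β * U.card / 2) * (q / (q + 1)) := by
      field_simp
    rw [e1]
    have h5 : (q : ℝ) / (q + 1) < 1 := by
      rw [div_lt_one (by positivity)]
      linarith
    nlinarith
  have h6 : (q : ℝ) * ((J \ K).filter E).card < (J \ K).card := by linarith
  exact_mod_cast h6

/-- There are arbitrarily large finite sets of small additive energy in `A`. -/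
def Additive (A : Set ℕ) : Prop := ∃ (p : ℕ) (C : ℝ), ∀ H₀ : ℕ, ∃ H ≥ H₀, ∃ M : ℕ, ∃ F : Finset ℕ, F.Nonempty ∧
  (∀ a ∈ F, a ∈ A ∧ M < a ∧ a ≤ M + H) ∧ (energyF p F : ℝ) * H ≤ C * (F.card : ℝ) ^ (2 * p)

theorem sel_additive {A : Set ℕ} (hA : Additive A) : Sel A := by
  classical
  intro L ε hε q R
  obtain ⟨p, C, hA⟩ := hA
  obtain ⟨H₀, N₀, h1⟩ := gen liR liR_norm liR_E 1 L (min ε (1 / (2 * ((q : ℝ) + 1)))) (by positivity) p C
  obtain ⟨H, hH, M, F, hFne, hF, hFc⟩ := hA (H₀ + ⌈|C| * (2 * ((R : ℝ) + 1)) ^ p⌉₊ + 1)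
  set x := F.card with hx
  have hx0 : (0 : ℝ) < x := by exact_mod_cast card_pos.2 hFne
  have hxH : 2 * ((R : ℝ) + 1) < x := by
    by_contra hcon
    rw [not_lt] at hcon
    have h2 : ((x : ℝ)) ^ p ≤ energyF p F := by exact_mod_cast le_energyF p F
    have h3 : (x : ℝ) ^ p * H ≤ (x : ℝ) ^ p * (C * (x : ℝ) ^ p) := by
      calc (x : ℝ) ^ p * H ≤ energyF p F * H := mul_le_mul_of_nonneg_right h2 (Nat.cast_nonneg _)
        _ ≤ C * (x : ℝ) ^ (2 * p) := hFc
        _ = _ := by rw [two_mul, pow_add]; ring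
    have h4 := le_of_mul_le_mul_left h3 (by positivity)
    have h5 : C * (x : ℝ) ^ p ≤ |C| * (2 * ((R : ℝ) + 1)) ^ p := by
      apply mul_le_mul (le_abs_self C) _ (by positivity) (abs_nonneg _)
      exact pow_le_pow_left₀ hx0.le hcon p
    have h6 : (⌈|C| * (2 * ((R : ℝ) + 1)) ^ p⌉₊ : ℝ) + 1 ≤ H := by
      exact_mod_cast (by omega : ⌈|C| * (2 * ((R : ℝ) + 1)) ^ p⌉₊ + 1 ≤ H)
    have h7 := Nat.le_ceil (|C| * (2 * ((R : ℝ) + 1)) ^ p)
    linarith
  set t : ℕ → ℕ := fun m => Nat.nth (· ∈ F) (m - 1) with ht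
  have hfin : {a | a ∈ F}.Finite := F.finite_toSet
  have hcard : hfin.toFinset.card = x := by
    rw [hx]
    congr 1
    ext a
    exact Set.Finite.mem_toFinset _
  have htm : ∀ m ∈ Icc 1 x, t m ∈ F := by
    intro m hm
    rw [mem_Icc] at hm
    exact Nat.nth_mem_of_lt_card hfin (by rw [hcard]; omega)
  have hinj : Set.InjOn t (Icc 1 x : Finset ℕ) := by
    intro m hm m' hm' h
    rw [mem_coe, mem_Icc] at hm hm'
    have h2 := Nat.nth_injOn hfin (show m - 1 ∈ Set.Iio _ by rw [Set.mem_Iio, hcard]; omega)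
      (show m' - 1 ∈ Set.Iio _ by rw [Set.mem_Iio, hcard]; omega) h
    omega
  have hK : ((Icc 1 x).filter (fun m => t m ≤ R)).card ≤ R + 1 := by
    rw [← card_range (R + 1)]
    apply Finset.card_le_card_of_injOn t
    · intro m hm
      rw [mem_coe, mem_filter] at hm
      rw [mem_coe, mem_range]
      omega
    · intro m hm m' hm' h
      rw [mem_coe, mem_filter] at hm hm'
      exact hinj (mem_coe.2 hm.1) (mem_coe.2 hm'.1) h
  refine ⟨max N₀ (max H M), Icc 1 x \ (Icc 1 x).filter (fun m => t m ≤ R), t, ?_, ?_⟩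
  · intro m hm
    rw [Finset.mem_sdiff, mem_filter] at hm
    refine ⟨(hF _ (htm m hm.1)).1, ?_⟩
    by_contra hcon
    exact hm.2 ⟨hm.1, by omega⟩
  · intro N hN g hg
    have h2 := h1 N H (by omega) (by omega) (by omega) x (fun m => (t m : ℤ) - M) (by
      intro m hm
      obtain ⟨_, h3, h4⟩ := hF _ (htm m hm)
      rw [abs_le]
      constructor <;> omega) (by
      have h3 : (energy p x (fun m => (t m : ℤ) - M) : ℝ) ≤ energyF p F := by
        exact_mod_cast energy_le (M := M) htm hinj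
      exact (mul_le_mul_of_nonneg_right h3 (Nat.cast_nonneg _)).trans hFc) (fun _ => 1) (fun _ => (M : ℤ)) g
      (fun _ => le_rfl) (fun _ => by
        have : (M : ℤ) ≤ N := by omega
        push_cast
        linarith) hg
    have h6 : (((Icc 1 x).filter (fun m => Bad ε g N (t m))).card : ℝ) ≤
        1 / (2 * ((q : ℝ) + 1)) * (Icc 1 x).card := by
      rw [← nu_eq, Nat.card_Icc, Nat.add_sub_cancel]
      refine le_trans (nu_mono ?_) (h2.trans (mul_le_mul_of_nonneg_right (min_le_right _ _) (Nat.cast_nonneg _)))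
      intro m _ hb hS
      exact Sm_not_bad (min_le_left _ _) (a := t m) (by ring) hS hb
    refine count_lemma (β := 1) (R := R + 1) (by simp) hK h6 (Subset.refl _) ?_
    rw [Nat.card_Icc, Nat.add_sub_cancel]
    push_cast
    linarith

/-- positive upper Banach density -/
def Dense (A : Set ℕ) : Prop := ∃ δ : ℝ, 0 < δ ∧ ∀ H₀ : ℕ, ∃ H ≥ H₀, ∃ M : ℕ, ∃ F : Finset ℕ,
  (∀ a ∈ F, a ∈ A ∧ M < a ∧ a ≤ M + H) ∧ δ * H ≤ F.card

theorem additive_of_dense {A : Set ℕ} (hA : Dense A) : Additive A := by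
  obtain ⟨δ, hδ, hA⟩ := hA
  refine ⟨1, 1 / δ, fun H₀ => ?_⟩
  obtain ⟨H, hH, M, F, hF, hc⟩ := hA (H₀ + 1)
  have hH1 : (0 : ℝ) < H := by exact_mod_cast (by omega : 0 < H)
  have hF0 : (0 : ℝ) < F.card := lt_of_lt_of_le (by positivity) hc
  refine ⟨H, by omega, M, F, card_pos.1 (by exact_mod_cast hF0), hF, ?_⟩
  have h4 : (energyF 1 F : ℝ) ≤ F.card := by exact_mod_cast energyF_one F
  have h5 : (H : ℝ) ≤ 1 / δ * F.card := by
    rw [one_div, inv_mul_eq_div, le_div_iff₀ hδ]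
    linarith
  calc (energyF 1 F : ℝ) * H ≤ F.card * (1 / δ * F.card) := mul_le_mul h4 h5 hH1.le hF0.le
    _ = 1 / δ * (F.card : ℝ) ^ (2 * 1) := by ring

/-- positive relative upper density in the primes -/
def DensePrimes (A : Set ℕ) : Prop := ∃ δ : ℝ, 0 < δ ∧ ∀ H₀ : ℕ, ∃ H ≥ H₀, ∃ F : Finset ℕ,
  (∀ p ∈ F, p ∈ A ∧ p.Prime ∧ p ≤ H) ∧ δ * Nat.primeCounting H ≤ F.card

lemma primeCounting_eq (H : ℕ) : Nat.primeCounting H = ((Icc 1 H).filter Nat.Prime).card := by
  rw [Nat.primeCounting, Nat.primeCounting', Nat.count_eq_card_filter_range]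
  congr 1
  ext p
  simp only [mem_filter, mem_range, mem_Icc]
  constructor
  · rintro ⟨h5, h6⟩
    exact ⟨⟨h6.one_lt.le, by omega⟩, h6⟩
  · rintro ⟨h5, h6⟩
    exact ⟨by omega, h6⟩

theorem sel_primes {A : Set ℕ} (hA : DensePrimes A) : Sel A := by
  classical
  intro L ε hε q R
  obtain ⟨δ, hδ, hA⟩ := hA
  obtain ⟨H₀, N₀, h1⟩ := pri liR liR_norm liR_E 1 L (min ε (δ / (2 * ((q : ℝ) + 1)))) (by positivity)
  obtain ⟨H₁, hH₁⟩ := Filter.eventually_atTop.1
    ((tendsto_natCast_atTop_atTop.comp Nat.tendsto_primeCounting).eventually_gt_atTop ((2 * ((R : ℝ) + 1)) / δ))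
  obtain ⟨H, hH, F, hF, hFc⟩ := hA (H₀ + H₁)
  have h2 := hH₁ H (by omega)
  simp only [Function.comp] at h2
  rw [div_lt_iff₀ hδ] at h2
  refine ⟨max N₀ H, F \ range (R + 1), id, ?_, ?_⟩
  · intro m hm
    rw [Finset.mem_sdiff, mem_range] at hm
    exact ⟨(hF m hm.1).1, by simp only [id]; omega⟩
  · intro N hN g hg
    have h3 := h1 N H (by omega) (by omega) (by omega) (fun _ => 1) (fun _ => 0) g (fun _ => le_rfl)
      (fun _ => by positivity) hg
    rw [primeCounting_eq] at h3 h2 hFc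
    refine count_lemma (β := δ) (R := R + 1) (U := (Icc 1 H).filter Nat.Prime) hFc (by simp) ?_ ?_ ?_
    · rw [← nu_eq]
      refine le_trans (nu_mono ?_) (h3.trans (mul_le_mul_of_nonneg_right (min_le_right _ _) (Nat.cast_nonneg _)))
      intro m _ hb hS
      exact Sm_not_bad (min_le_left _ _) (a := id m) (by simp) hS hb
    · intro p hp
      rw [mem_filter, mem_Icc]
      exact ⟨⟨(hF p hp).2.1.one_lt.le, (hF p hp).2.2⟩, (hF p hp).2.1⟩
    · push_cast
      linarith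

/-- positive upper density of the arguments at which a polynomial takes a value in the set -/
def DenseValues (A : Set ℕ) : Prop := ∃ f : Polynomial ℤ, 1 ≤ f.natDegree ∧ ∃ δ : ℝ, 0 < δ ∧
  ∀ x₀ : ℕ, ∃ x ≥ x₀, ∃ F : Finset ℕ, (∀ m ∈ F, 1 ≤ m ∧ m ≤ x ∧ ∃ a ∈ A, (a : ℤ) = f.eval (m : ℤ)) ∧ δ * x ≤ F.card

lemma values_finite (f : Polynomial ℤ) (hd : 1 ≤ f.natDegree) (R : ℕ) :
    {m : ℕ | 0 ≤ f.eval (m : ℤ) ∧ f.eval (m : ℤ) ≤ R}.Finite := by
  refine ((Set.finite_Icc (0 : ℤ) R).biUnion (t := fun c => {m : ℕ | f.eval (m : ℤ) = c}) ?_).subset ?_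
  · intro c _
    have h0 : f - Polynomial.C c ≠ 0 := by
      intro h
      rw [sub_eq_zero] at h
      rw [h, Polynomial.natDegree_C] at hd
      omega
    refine (((f - Polynomial.C c).roots.toFinset.finite_toSet).preimage
      (f := (Nat.cast : ℕ → ℤ)) Nat.cast_injective.injOn).subset ?_
    intro m hm
    rw [Set.mem_ofPred_eq] at hm
    rw [Set.mem_preimage, mem_coe, Multiset.mem_toFinset, Polynomial.mem_roots h0, Polynomial.IsRoot.def,
      Polynomial.eval_sub, Polynomial.eval_C, hm, sub_self]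
  · intro m hm
    rw [Set.mem_iUnion₂]
    exact ⟨f.eval (m : ℤ), hm, rfl⟩

theorem sel_values {A : Set ℕ} (hA : DenseValues A) : Sel A := by
  classical
  intro L ε hε q R
  obtain ⟨f, hd, δ, hδ, hA⟩ := hA
  obtain ⟨H₀, N₀, h1⟩ := pol liR liR_norm liR_E 1 L (min ε (δ / (2 * ((q : ℝ) + 1)))) (by positivity) f hd 1
  have hZ := values_finite f hd R
  obtain ⟨x, hx, F, hF, hFc⟩ := hA (H₀ + 1 + ⌈(2 * hZ.toFinset.card + 1) / δ⌉₊)
  have h2 : (2 * (hZ.toFinset.card : ℝ) + 1) ≤ δ * x := by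
    have h3 : (2 * (hZ.toFinset.card : ℝ) + 1) / δ ≤ x :=
      (Nat.le_ceil _).trans (by exact_mod_cast (by omega : ⌈(2 * (hZ.toFinset.card : ℝ) + 1) / δ⌉₊ ≤ x))
    rw [div_le_iff₀ hδ] at h3
    linarith
  have hxd : x ≤ x ^ f.natDegree := Nat.le_self_pow (by omega) x
  refine ⟨max N₀ (x ^ f.natDegree), F \ hZ.toFinset, fun m => (f.eval (m : ℤ)).toNat, ?_, ?_⟩
  · intro m hm
    rw [Finset.mem_sdiff, Set.Finite.mem_toFinset, Set.mem_ofPred_eq] at hm
    obtain ⟨_, _, a, ha, hae⟩ := hF m hm.1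
    have h3 : (f.eval (m : ℤ)).toNat = a := by rw [← hae, Int.toNat_natCast]
    simp only [h3]
    refine ⟨ha, ?_⟩
    by_contra hcon
    apply hm.2
    rw [← hae]
    constructor <;> omega
  · intro N hN g hg
    have h3 := h1 N (x ^ f.natDegree) (by omega) (by omega) (by omega) x (by omega) (by omega) (fun _ => 1)
      (fun _ => 0) g (fun _ => le_rfl) (fun _ => by positivity) hg
    have hN2 : ((F \ hZ.toFinset).filter (fun m : ℕ => Bad ε g N (f.eval (m : ℤ)).toNat)).card ≤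
        ((F \ hZ.toFinset).filter (fun m : ℕ => ¬ Sm liR L 1 N (min ε (δ / (2 * ((q : ℝ) + 1)))) (fun _ => 1)
          (fun _ => 0) g (f.eval (m : ℤ)))).card := by
      apply card_le_card
      intro m hm
      rw [mem_filter] at hm ⊢
      refine ⟨hm.1, fun hS => ?_⟩
      obtain ⟨_, _, a, ha, hae⟩ := hF m (Finset.mem_sdiff.1 hm.1).1
      refine Sm_not_bad (min_le_left _ _) (a := (f.eval (m : ℤ)).toNat) ?_ hS hm.2
      rw [zero_add, ← hae, Int.toNat_natCast]
    refine lt_of_le_of_lt (Nat.mul_le_mul_left _ hN2) ?_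
    refine count_lemma (β := δ) (R := hZ.toFinset.card) (U := Icc 1 x) (by simpa using hFc) le_rfl ?_ ?_ ?_
    · rw [← nu_eq]
      simp only [Nat.card_Icc, Nat.add_sub_cancel]
      exact h3.trans (mul_le_mul_of_nonneg_right (min_le_right _ _) (Nat.cast_nonneg _))
    · intro m hm
      rw [mem_Icc]
      exact ⟨(hF m hm).1, (hF m hm).2.1⟩
    · simp only [Nat.card_Icc, Nat.add_sub_cancel]
      linarith

end Pool.Agent.V11125.IP
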